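import Pool.Agent.H37.CNT.Stmts
import Pool.Agent.H1.CNX.XES

/-!
Row E2S of the board `cnt` (statement in `Pool/Agent/H37/CNT/Stmts.lean`): in an extraspecial 2-group `E` of order
`2 ^ (2 h + 3)`, not of plus type, with an elementary abelian subgroup `A` of order `2 ^ (h + 1)`: `A` contains the
centre, the centralizer of `A` is not commutative; for `a`, `b` in it with `a b ≠ b a` take `H` = the centralizer of `a`, `b`.
-/

set_option autoImplicit false

namespace Pool.CND

open Finset
open scoped IsMulCommutative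

namespace E2SAux

open XESAux

variable {G : Type} [Group G]

/-- `|C(M)| |M| = |M ∩ Z| |G|` -/
theorem card_cent [Fintype G] (hc : ∀ g g' : G, g * g' * g⁻¹ * g'⁻¹ ∈ Subgroup.center G)
    (χ : Subgroup.center G →* ℂ) (hχ : Function.Injective χ) (M : Subgroup G)
    (hZM : ∀ z ∈ Subgroup.center G, z ∈ M) :
    Nat.card {g : G // ∀ a ∈ M, a * g = g * a} * Nat.card M =
      Nat.card G * Nat.card (Subgroup.center G) := by
  classical
  have h1 : ∀ g : G, ∑ m : M, bt hc χ (m : G) g =
      if (∀ a ∈ M, a * g = g * a) then (Fintype.card M : ℂ) else 0 := by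
    intro g
    let F : M →* ℂ := (btL hc χ g).comp M.subtype
    have h := sum_hom_units F
    have h0 : F = 1 ↔ (∀ a ∈ M, a * g = g * a) := by
      constructor
      · intro h a ha
        have : F ⟨a, ha⟩ = 1 := DFunLike.congr_fun h _
        exact (bt_eq_one hc χ hχ a g).1 this
      · intro h
        exact MonoidHom.ext fun m => (bt_eq_one hc χ hχ m g).2 (h m m.2)
    have h2 : ∑ m : M, bt hc χ (m : G) g = ∑ m : M, F m := rfl
    rw [h2, h]
    by_cases hg : ∀ a ∈ M, a * g = g * a
    · rw [if_pos (h0.2 hg), if_pos hg]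
    · rw [if_neg (fun hh => hg (h0.1 hh)), if_neg hg, Nat.cast_zero]
  have h2 : ∀ m : M, ∑ g : G, bt hc χ (m : G) g =
      if (m : G) ∈ Subgroup.center G then (Fintype.card G : ℂ) else 0 := by
    intro m
    have h := sum_hom_units (btR hc χ (m : G))
    have h0 : btR hc χ (m : G) = 1 ↔ (m : G) ∈ Subgroup.center G := by
      rw [Subgroup.mem_center_iff]
      constructor
      · intro h g
        exact ((bt_eq_one hc χ hχ m g).1 (DFunLike.congr_fun h g)).symm
      · intro h
        exact MonoidHom.ext fun g => (bt_eq_one hc χ hχ m g).2 (h g).symm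
    have h3 : ∑ g : G, bt hc χ (m : G) g = ∑ g : G, btR hc χ (m : G) g := rfl
    rw [h3, h]
    by_cases hg : (m : G) ∈ Subgroup.center G
    · simp only [h0, hg, if_true]
    · simp only [h0, hg, if_false, Nat.cast_zero]
  have h3 : ∑ g : G, ∑ m : M, bt hc χ (m : G) g =
      (Fintype.card {g : G // ∀ a ∈ M, a * g = g * a} : ℂ) * Fintype.card M := by
    rw [Finset.sum_congr rfl fun g _ => h1 g, ← Finset.sum_filter, Finset.sum_const, nsmul_eq_mul]
    congr 2
    rw [← Fintype.card_subtype]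
  have h4 : ∑ m : M, ∑ g : G, bt hc χ (m : G) g =
      (Fintype.card (Subgroup.center G) : ℂ) * Fintype.card G := by
    rw [Finset.sum_congr rfl fun m _ => h2 m, ← Finset.sum_filter, Finset.sum_const, nsmul_eq_mul]
    congr 2
    rw [← Fintype.card_subtype]
    refine Fintype.card_congr ⟨fun m => ⟨m.1.1, m.2⟩, fun z => ⟨⟨z.1, hZM z.1 z.2⟩, z.2⟩,
      fun m => rfl, fun z => rfl⟩
  rw [Finset.sum_comm, h4] at h3
  have h5 : Fintype.card (Subgroup.center G) * Fintype.card G =
      Fintype.card {g : G // ∀ a ∈ M, a * g = g * a} * Fintype.card M := by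
    exact_mod_cast h3
  simp only [Nat.card_eq_fintype_card]
  rw [← h5, mul_comm]

/-- elementary abelian closures -/
theorem ea_closure (p : ℕ) (S : Set G) (hS : ∀ x ∈ S, ∀ y ∈ S, x * y = y * x)
    (hp : ∀ x ∈ S, x ^ p = 1) : EA p (Subgroup.closure S) := by
  have hcl := Subgroup.isMulCommutative_closure hS
  have hcom : ∀ x ∈ Subgroup.closure S, ∀ y ∈ Subgroup.closure S, x * y = y * x := fun x hx y hy =>
    congrArg Subtype.val (hcl.is_comm.comm (⟨x, hx⟩ : Subgroup.closure S) ⟨y, hy⟩)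
  refine ⟨?_, hcom⟩
  intro x hx
  induction hx using Subgroup.closure_induction with
  | mem x hx => exact hp x hx
  | one => exact one_pow p
  | mul x y hx hy h1 h2 =>
    rw [Commute.mul_pow (hcom x hx y hy), h1, h2, mul_one]
  | inv x hx h1 => rw [inv_pow, h1, inv_one]

theorem bt_pm (hc : ∀ g g' : G, g * g' * g⁻¹ * g'⁻¹ ∈ Subgroup.center G)
    (hZ : Nat.card (Subgroup.center G) = 2) (χ : Subgroup.center G →* ℂ) (v g : G) :
    bt hc χ v g = 1 ∨ bt hc χ v g = -1 := by
  have h1 : (⟨cm v g, hc v g⟩ : Subgroup.center G) ^ Nat.card (Subgroup.center G) = 1 :=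
    pow_card_eq_one'
  rw [hZ] at h1
  have h2 : bt hc χ v g ^ 2 = 1 := by
    unfold bt
    rw [← map_pow, h1, map_one]
  rw [sq] at h2
  exact mul_self_eq_one_iff.1 h2

theorem comm_or (hc : ∀ g g' : G, g * g' * g⁻¹ * g'⁻¹ ∈ Subgroup.center G)
    (hZ : Nat.card (Subgroup.center G) = 2) (χ : Subgroup.center G →* ℂ)
    (hχ : Function.Injective χ) (v b g : G) (hvb : v * b ≠ b * v) :
    v * g = g * v ∨ v * (g * b) = (g * b) * v := by
  rcases bt_pm hc hZ χ v g with h1 | h1
  · exact Or.inl ((bt_eq_one hc χ hχ v g).1 h1)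
  · refine Or.inr ((bt_eq_one hc χ hχ v (g * b)).1 ?_)
    have h2 : bt hc χ v b = -1 :=
      (bt_pm hc hZ χ v b).resolve_left fun h => hvb ((bt_eq_one hc χ hχ v b).1 h)
    rw [bt_mul_right, h1, h2]; norm_num

/-- the centralizer of `a`, `b` has index `4` -/
theorem card_ab [Fintype G] (hc : ∀ g g' : G, g * g' * g⁻¹ * g'⁻¹ ∈ Subgroup.center G)
    (hZ : Nat.card (Subgroup.center G) = 2)
    (χ : Subgroup.center G →* ℂ) (hχ : Function.Injective χ) (a b : G) (hab : a * b ≠ b * a) :
    4 * Nat.card {g : G // a * g = g * a ∧ b * g = g * b} = Nat.card G := by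
  classical
  have hpm := bt_pm hc hZ χ
  have h1 : ∀ g : G, (1 + bt hc χ a g) * (1 + bt hc χ b g) =
      if (a * g = g * a ∧ b * g = g * b) then (4 : ℂ) else 0 := by
    intro g
    by_cases ha : a * g = g * a
    · have h1 := (bt_eq_one hc χ hχ a g).2 ha
      by_cases hb : b * g = g * b
      · have h2 := (bt_eq_one hc χ hχ b g).2 hb
        rw [if_pos ⟨ha, hb⟩, h1, h2]; norm_num
      · have h2 : bt hc χ b g = -1 :=
          (hpm b g).resolve_left fun h => hb ((bt_eq_one hc χ hχ b g).1 h)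
        rw [if_neg (fun h => hb h.2), h2]; norm_num
    · have h2 : bt hc χ a g = -1 :=
        (hpm a g).resolve_left fun h => ha ((bt_eq_one hc χ hχ a g).1 h)
      rw [if_neg (fun h => ha h.1), h2]; norm_num
  have h2 : ∀ v x : G, v * x ≠ x * v → ∑ g : G, bt hc χ v g = 0 := by
    intro v x hvx
    have h := sum_hom_units_eq_zero (btR hc χ v) (fun h => hvx
      ((bt_eq_one hc χ hχ v x).1 (DFunLike.congr_fun h x)))
    exact h
  have h3 : ∑ g : G, (1 + bt hc χ a g) * (1 + bt hc χ b g) = (Fintype.card G : ℂ) := by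
    have e : ∀ g : G, (1 + bt hc χ a g) * (1 + bt hc χ b g) =
        1 + bt hc χ a g + bt hc χ b g + bt hc χ (a * b) g := by
      intro g
      rw [bt_mul_left]; ring
    rw [Finset.sum_congr rfl fun g _ => e g, Finset.sum_add_distrib, Finset.sum_add_distrib,
      Finset.sum_add_distrib, h2 a b hab, h2 b a (fun h => hab h.symm), h2 (a * b) b ?_]
    · simp
    · intro h
      apply hab
      have h4 : a * b * b = b * a * b := by rw [h, mul_assoc]
      exact mul_right_cancel h4
  rw [Finset.sum_congr rfl fun g _ => h1 g, ← Finset.sum_filter, Finset.sum_const, nsmul_eq_mul,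
    ← Fintype.card_subtype] at h3
  have h4 : Fintype.card {g : G // a * g = g * a ∧ b * g = g * b} * 4 = Fintype.card G := by
    exact_mod_cast h3
  simp only [Nat.card_eq_fintype_card]
  omega

/-- the abstract form of the row -/
theorem main [Finite G] (h : ℕ) (hX : X2 (h + 1) G) (hP : ¬ Pls (h + 1) G) (A : Subgroup G)
    (hA : EA 2 A) (hAc : Nat.card A = 2 ^ (h + 1)) :
    ∃ H : Subgroup G, (∀ z ∈ Subgroup.center G, z ∈ H) ∧ X2 h H ∧ Pls h H := by
  classical
  have : Fintype G := Fintype.ofFinite G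
  obtain ⟨hG, hZ, hpow, hc⟩ := hX
  obtain ⟨χ, hχ⟩ := exists_chi (Z := Subgroup.center G) (by rw [hZ]; exact Nat.prime_two)
  have hz2 : ∀ z ∈ Subgroup.center G, z ^ 2 = 1 := by
    intro z hz
    have h1 : (⟨z, hz⟩ : Subgroup.center G) ^ Nat.card (Subgroup.center G) = 1 := pow_card_eq_one'
    rw [hZ] at h1
    exact congrArg Subtype.val h1
  -- `A` contains the centre
  have hZA : ∀ z ∈ Subgroup.center G, z ∈ A := by
    have hea : EA 2 (Subgroup.closure ((A : Set G) ∪ (Subgroup.center G : Set G))) := by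
      refine ea_closure 2 _ ?_ ?_
      · rintro x (hx | hx) y (hy | hy)
        · exact hA.2 x hx y hy
        · exact Subgroup.mem_center_iff.1 hy x
        · exact (Subgroup.mem_center_iff.1 hx y).symm
        · exact Subgroup.mem_center_iff.1 hy x
      · rintro x (hx | hx)
        · exact hA.1 x hx
        · exact hz2 x hx
    set A' := Subgroup.closure ((A : Set G) ∪ (Subgroup.center G : Set G)) with hA'
    have hle : A ≤ A' := fun a ha => Subgroup.subset_closure (Or.inl ha)
    by_cases heq : A = A'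
    · intro z hz
      rw [heq]
      exact Subgroup.subset_closure (Or.inr hz)
    · exfalso
      apply hP
      -- the order of `A'` is a multiple of `2 ^ (h + 2)`
      have h1 : Nat.card A ∣ Nat.card A' := Subgroup.card_dvd_of_le hle
      have h2 : Nat.card A' ∣ 2 ^ (2 * (h + 1) + 1) := hG ▸ Subgroup.card_subgroup_dvd_card A'
      obtain ⟨n, _, hn⟩ := (Nat.dvd_prime_pow Nat.prime_two).1 h2
      have h3 : h + 1 ≤ n := by
        rw [hn, hAc] at h1
        exact (Nat.pow_dvd_pow_iff_le_right (by norm_num)).1 h1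
      have h4 : h + 1 ≠ n := by
        rintro rfl
        apply heq
        exact Subgroup.eq_of_le_of_card_ge hle (by rw [hn, hAc])
      have h5 : 2 ^ (h + 1 + 1) ∣ Nat.card A' := by
        rw [hn]
        exact Nat.pow_dvd_pow 2 (by omega)
      have : Fact (Nat.Prime 2) := ⟨Nat.prime_two⟩
      obtain ⟨K, hK⟩ := Sylow.exists_subgroup_card_pow_prime 2 h5
      refine ⟨K.map A'.subtype, ⟨?_, ?_⟩, ?_⟩
      · rintro _ ⟨x, hx, rfl⟩
        exact hea.1 _ x.2
      · rintro _ ⟨x, hx, rfl⟩ _ ⟨y, hy, rfl⟩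
        exact hea.2 _ x.2 _ y.2
      · rw [← hK]
        exact Subgroup.card_map_of_injective A'.subtype_injective
  -- the centralizer of `A`
  obtain ⟨a, b, haA, hbA, hab⟩ : ∃ a b : G, (∀ x ∈ A, x * a = a * x) ∧ (∀ x ∈ A, x * b = b * x) ∧
      a * b ≠ b * a := by
    by_contra hno
    push Not at hno
    let C : Subgroup G := Subgroup.centralizer (A : Set G)
    have hC : ∀ g : G, g ∈ C ↔ ∀ a ∈ A, a * g = g * a := fun g => Subgroup.mem_centralizer_iff
    have h1 := card_cent hc χ hχ A hZA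
    have h2 : Nat.card {g : G // ∀ a ∈ A, a * g = g * a} = Nat.card C :=
      Nat.card_congr (Equiv.subtypeEquivRight fun g => (hC g).symm)
    have hZC : ∀ z ∈ Subgroup.center G, z ∈ C := fun z hz =>
      (hC z).2 fun a _ => Subgroup.mem_center_iff.1 hz a
    have h3 := card_cent hc χ hχ C hZC
    have h4 : Nat.card C ≤ Nat.card {g : G // ∀ a ∈ C, a * g = g * a} :=
      Nat.card_le_card_of_injective (fun g : C => (⟨g.1, fun a ha =>
        hno a g.1 ((hC a).1 ha) ((hC g.1).1 g.2)⟩ : {g : G // ∀ a ∈ C, a * g = g * a}))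
        (fun x y hxy => Subtype.ext (Subtype.mk.inj hxy))
    rw [h2, hAc, hG, hZ] at h1
    rw [hG, hZ] at h3
    have h5 : Nat.card C = 2 ^ (h + 3) := by
      have : Nat.card C * 2 ^ (h + 1) = 2 ^ (h + 3) * 2 ^ (h + 1) := by
        rw [h1]; ring
      exact Nat.eq_of_mul_eq_mul_right (by positivity) this
    rw [h5] at h3 h4
    have h6 : 2 ^ (h + 3) * 2 ^ (h + 3) ≤ 2 ^ (2 * (h + 1) + 1) * 2 := by
      rw [← h3]
      exact Nat.mul_le_mul_right _ h4
    rw [← pow_add, ← pow_succ] at h6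
    have h7 := (Nat.pow_le_pow_iff_right (by norm_num)).1 h6
    omega
  -- the subgroup
  let H : Subgroup G := Subgroup.centralizer {a, b}
  have hH : ∀ g : G, g ∈ H ↔ a * g = g * a ∧ b * g = g * b := by
    intro g
    rw [Subgroup.mem_centralizer_iff]
    constructor
    · intro h
      exact ⟨h a (Or.inl rfl), h b (Or.inr rfl)⟩
    · rintro ⟨h1, h2⟩ x (rfl | hx)
      · exact h1
      · rw [Set.mem_singleton_iff.1 hx]; exact h2
  have hZH : ∀ z ∈ Subgroup.center G, z ∈ H := fun z hz =>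
    (hH z).2 ⟨Subgroup.mem_center_iff.1 hz a, Subgroup.mem_center_iff.1 hz b⟩
  have hAH : A ≤ H := fun x hx => (hH x).2 ⟨(haA x hx).symm, (hbA x hx).symm⟩
  have hHc : Nat.card H = 2 ^ (2 * h + 1) := by
    have h1 := card_ab hc hZ χ hχ a b hab
    have h2 : Nat.card {g : G // a * g = g * a ∧ b * g = g * b} = Nat.card H :=
      Nat.card_congr (Equiv.subtypeEquivRight fun g => (hH g).symm)
    rw [h2, hG] at h1
    have h3 : 4 * Nat.card H = 4 * 2 ^ (2 * h + 1) := by
      rw [h1]; ring
    exact Nat.eq_of_mul_eq_mul_left (by norm_num) h3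
  -- `G` is generated by `H`, `a`, `b`
  have hgen : ∀ z : G, z ∈ H → (∀ g ∈ H, z * g = g * z) → z ∈ Subgroup.center G := by
    intro z hz hzH
    obtain ⟨hza, hzb⟩ := (hH z).1 hz
    rw [Subgroup.mem_center_iff]
    intro g
    -- first step
    have s1 : ∃ x : G, (x = 1 ∨ x = b) ∧ a * (g * x) = (g * x) * a := by
      rcases comm_or hc hZ χ hχ a b g hab with h1 | h1
      · exact ⟨1, Or.inl rfl, by rw [mul_one]; exact h1⟩
      · exact ⟨b, Or.inr rfl, h1⟩
    obtain ⟨x, hx, hax⟩ := s1
    have s2 : ∃ y : G, (y = 1 ∨ y = a) ∧ b * (g * x * y) = (g * x * y) * b := by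
      rcases comm_or hc hZ χ hχ b a (g * x) (fun h => hab h.symm) with h1 | h1
      · exact ⟨1, Or.inl rfl, by rw [mul_one]; exact h1⟩
      · exact ⟨a, Or.inr rfl, h1⟩
    obtain ⟨y, hy, hby⟩ := s2
    have hay : a * (g * x * y) = (g * x * y) * a := by
      rcases hy with rfl | rfl
      · rw [mul_one]; exact hax
      · rw [← mul_assoc, hax, mul_assoc]
    have hm := hzH (g * x * y) ((hH _).2 ⟨hay, hby⟩)
    have hzx : z * x = x * z := by
      rcases hx with rfl | rfl
      · rw [mul_one, one_mul]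
      · exact hzb.symm
    have hzy : z * y = y * z := by
      rcases hy with rfl | rfl
      · rw [mul_one, one_mul]
      · exact hza.symm
    have h1 : z * g * (x * y) = g * z * (x * y) := by
      calc z * g * (x * y) = z * (g * x * y) := by simp only [mul_assoc]
        _ = g * x * y * z := hm
        _ = g * x * (z * y) := by rw [hzy]; simp only [mul_assoc]
        _ = g * (x * z) * y := by simp only [mul_assoc]
        _ = g * (z * x) * y := by rw [hzx]
        _ = g * z * (x * y) := by simp only [mul_assoc]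
    exact (mul_right_cancel h1).symm
  have hcen : ∀ z : H, z ∈ Subgroup.center H ↔ (z : G) ∈ Subgroup.center G := by
    intro z
    constructor
    · intro hz
      refine hgen z z.2 fun g hg => ?_
      exact (congrArg Subtype.val (Subgroup.mem_center_iff.1 hz ⟨g, hg⟩)).symm
    · intro hz
      rw [Subgroup.mem_center_iff]
      intro g
      exact Subtype.ext (Subgroup.mem_center_iff.1 hz g)
  refine ⟨H, hZH, ⟨hHc, ?_, ?_, ?_⟩, ?_⟩
  · rw [← hZ]
    exact Nat.card_congr ⟨fun z => ⟨z.1.1, (hcen z.1).1 z.2⟩,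
      fun z => ⟨⟨z.1, hZH z.1 z.2⟩, (hcen _).2 z.2⟩, fun z => rfl, fun z => rfl⟩
  · exact fun g => (hcen _).2 (hpow g)
  · exact fun g g' => (hcen _).2 (hc g g')
  · refine ⟨A.subgroupOf H, ⟨?_, ?_⟩, ?_⟩
    · intro x hx
      exact Subtype.ext (hA.1 _ (Subgroup.mem_subgroupOf.1 hx))
    · intro x hx y hy
      exact Subtype.ext (hA.2 _ (Subgroup.mem_subgroupOf.1 hx) _ (Subgroup.mem_subgroupOf.1 hy))
    · rw [← hAc]
      exact Nat.card_congr (Subgroup.subgroupOfEquivOfLe hAH).toEquiv

end E2SAux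

theorem e2s_thm (hEGA : S_EGA) (hEGC : S_EGC) (_hEGZ : S_EGZ) (hE2M : S_E2M) : S_E2S := by
  intro k _ _ _ _ h hh
  obtain ⟨hfin, hcard⟩ := hEGC 2 k (h + 1) (by omega)
  obtain ⟨hX, hP⟩ := hE2M k (h + 1) (by omega)
  obtain ⟨A, hA, _, hA2⟩ := hEGA 2 k (h + 1) (by omega)
  have hAc : Nat.card A = 2 ^ (h + 1) := by
    have h1 := hA2 rfl
    rw [hcard] at h1
    have h2 : 2 ^ (h + 1 + 1) * Nat.card A = 2 ^ (h + 1 + 1) * 2 ^ (h + 1) := by
      rw [← h1]; ring
    exact Nat.eq_of_mul_eq_mul_left (by positivity) h2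
  obtain ⟨H, hZ, hXH, hPH⟩ := E2SAux.main h hX hP A hA hAc
  refine ⟨H, fun g hg => hZ g ?_, hXH, hPH⟩
  rw [Subgroup.mem_center_iff]
  intro x
  ext
  · rw [EG.mul_w, EG.mul_w, add_comm]
  · rw [EG.mul_β, EG.mul_β, hg, Bf_zero_left, Bf_zero_right]
    ring

end Pool.CND
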